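import Pool.Agent.Lib.MP_5349a4_pr.M.H16.MOps

/-!
# Module IMG: image of a Poisson process under a measurable map
-/

set_option autoImplicit false
open MeasureTheory Set
open scoped ENNReal NNReal

namespace Pool.Agent.Lib.MP_5349a4_pr.H16

/-- integral against the Poisson law -/
theorem lintegral_PL {E : Type} [MeasurableSpace E] (ρ : Measure E) {F : Cfg E → ℝ≥0∞}
    (hF : Measurable F) :
    ∫⁻ ω, F ω ∂PL ρ = ∑' k : ℕ, (ENNReal.ofReal (Real.exp (-(ρ univ).toReal)) /
      (k.factorial : ℝ≥0∞)) * ∫⁻ x : Fin k → E, F ⟨k, x⟩ ∂Measure.pi fun _ : Fin k => ρ := by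
  unfold PL
  rw [lintegral_sum_measure]
  refine tsum_congr fun k => ?_
  rw [lintegral_smul_measure, smul_eq_mul, lintegral_map hF (measurable_mk k)]

/-- **IMG.** -/
theorem img : ImgStatement := by
  intro E E' _ _ ρ _ e f he hf
  obtain ⟨m, hm, hm'⟩ := mops.2.2 E E' e he
  have hF : Measurable fun ω : Cfg E => f (e '' pt ω) := by
    have h1 : (fun ω : Cfg E => f (e '' pt ω)) = (fun ω => f (pt ω)) ∘ m := by
      funext ω
      simp [hm']
    rw [h1]
    exact hf.comp hm
  rw [lintegral_PL _ hf, lintegral_PL _ hF]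
  refine tsum_congr fun k => ?_
  rw [Measure.map_apply he MeasurableSet.univ, preimage_univ]
  congr 1
  have h2 : (Measure.pi fun _ : Fin k => ρ.map e)
      = (Measure.pi fun _ : Fin k => ρ).map fun x i => e (x i) := by
    rw [Measure.pi_map_pi (fun _ => he.aemeasurable)]
  have hm2 : Measurable fun (x : Fin k → E) (i : Fin k) => e (x i) :=
    measurable_pi_lambda _ fun i => he.comp (measurable_pi_apply i)
  have hfk : Measurable fun x : Fin k → E' => f (pt (⟨k, x⟩ : Cfg E')) :=
    hf.comp (measurable_mk k)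
  rw [h2, lintegral_map hfk hm2]
  refine lintegral_congr fun x => ?_
  congr 1
  unfold pt
  ext p
  constructor
  · rintro ⟨i, rfl⟩
    exact ⟨x i, ⟨i, rfl⟩, rfl⟩
  · rintro ⟨_, ⟨i, rfl⟩, rfl⟩
    exact ⟨i, rfl⟩

end Pool.Agent.Lib.MP_5349a4_pr.H16
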