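import Pool.Agent.Lib.MP_5349a4_pr.M.H16.MSum

/-!
# Modules MRESTR and MOPS: restriction, union, insertion and image on tuples
-/

set_option autoImplicit false
open MeasureTheory Set
open scoped ENNReal NNReal

namespace Pool.Agent.Lib.MP_5349a4_pr.H16

/-- **MRESTR.** -/
theorem mrestr : MRestrStatement := by
  classical
  intro T E _ _ A hA
  refine ⟨fun q => sub (Finset.univ.filter fun i => (q.1, q.2.2 i) ∈ A) q.2.2, ?_, ?_⟩
  · refine measurable_prod_cfg fun k => ?_
    show Measurable fun q : T × (Fin k → E) =>
      sub (Finset.univ.filter fun i => (q.1, q.2 i) ∈ A) q.2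
    -- finitely many pieces
    intro s hs
    have h1 : (fun q : T × (Fin k → E) =>
        sub (Finset.univ.filter fun i => (q.1, q.2 i) ∈ A) q.2) ⁻¹' s
        = ⋃ J : Finset (Fin k), {q : T × (Fin k → E) | ∀ i, i ∈ J ↔ (q.1, q.2 i) ∈ A} ∩
            (fun q : T × (Fin k → E) => sub J q.2) ⁻¹' s := by
      ext q
      simp only [mem_preimage, mem_iUnion, mem_inter_iff, mem_setOf_eq]
      constructor
      · intro h
        exact ⟨_, fun i => by simp, h⟩
      · rintro ⟨J, hJ, h⟩
        have : J = Finset.univ.filter fun i => (q.1, q.2 i) ∈ A := by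
          ext i
          simp [hJ i]
        rw [← this]
        exact h
    rw [h1]
    refine MeasurableSet.iUnion fun J => MeasurableSet.inter ?_ ?_
    · have h2 : {q : T × (Fin k → E) | ∀ i, i ∈ J ↔ (q.1, q.2 i) ∈ A}
          = ⋂ i : Fin k, {q : T × (Fin k → E) | i ∈ J ↔ (q.1, q.2 i) ∈ A} := by
        ext q; simp
      rw [h2]
      refine MeasurableSet.iInter fun i => ?_
      have h3 : MeasurableSet {q : T × (Fin k → E) | (q.1, q.2 i) ∈ A} :=
        (measurable_fst.prodMk ((measurable_pi_apply i).comp measurable_snd)) hA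
      by_cases hi : i ∈ J
      · simpa [hi] using h3
      · have : {q : T × (Fin k → E) | i ∈ J ↔ (q.1, q.2 i) ∈ A}
            = {q : T × (Fin k → E) | (q.1, q.2 i) ∈ A}ᶜ := by
          ext q; simp [hi]
        rw [this]
        exact h3.compl
    · exact ((measurable_sub J).comp measurable_snd) hs
  · rintro t ⟨k, x⟩
    rw [pt_sub]
    ext e
    constructor
    · rintro ⟨i, hi, rfl⟩
      exact ⟨⟨i, rfl⟩, by simpa using hi⟩
    · rintro ⟨⟨i, rfl⟩, he⟩
      exact ⟨i, by simpa using he, rfl⟩

/-- **MOPS.** -/
theorem mops : MOpsStatement := by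
  classical
  refine ⟨?_, ?_, ?_⟩
  · intro E _
    refine ⟨fun q => ⟨q.1.1 + q.2.1, Fin.append q.1.2 q.2.2⟩, ?_, ?_⟩
    · refine measurable_prod_cfg fun k => ?_
      -- swap the two factors to reduce the first one
      have h1 : Measurable fun q : (Fin k → E) × Cfg E =>
          (⟨q.2.1 + k, Fin.append q.2.2 q.1⟩ : Cfg E) := by
        refine measurable_prod_cfg fun j => ?_
        refine (measurable_mk (j + k)).comp ?_
        refine measurable_pi_lambda _ fun i => ?_
        show Measurable fun q : (Fin k → E) × (Fin j → E) => Fin.append q.2 q.1 i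
        induction i using Fin.addCases with
        | left i =>
          simp only [Fin.append_left]
          exact (measurable_pi_apply i).comp measurable_snd
        | right i =>
          simp only [Fin.append_right]
          exact (measurable_pi_apply i).comp measurable_fst
      exact h1.comp measurable_swap
    · rintro ⟨j, x⟩ ⟨k, y⟩
      unfold pt
      ext e
      simp only [mem_range, mem_union]
      constructor
      · rintro ⟨i, rfl⟩
        induction i using Fin.addCases with
        | left i => left; exact ⟨i, by simp⟩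
        | right i => right; exact ⟨i, by simp⟩
      · rintro (⟨i, rfl⟩ | ⟨i, rfl⟩)
        · exact ⟨Fin.castAdd k i, by simp⟩
        · exact ⟨Fin.natAdd j i, by simp⟩
  · intro E _
    refine ⟨fun q => ⟨q.2.1 + 1, Fin.cons q.1 q.2.2⟩, ?_, ?_⟩
    · refine measurable_prod_cfg fun k => ?_
      refine (measurable_mk (k + 1)).comp ?_
      refine measurable_pi_lambda _ fun i => ?_
      show Measurable fun q : E × (Fin k → E) => (Fin.cons q.1 q.2 : Fin (k + 1) → E) i
      induction i using Fin.cases with
      | zero =>
        simp only [Fin.cons_zero]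
        exact measurable_fst
      | succ i =>
        simp only [Fin.cons_succ]
        exact (measurable_pi_apply i).comp measurable_snd
    · rintro e ⟨k, x⟩
      unfold pt
      exact Fin.range_cons _ _
  · intro E E' _ _ e he
    refine ⟨fun ω => ⟨ω.1, fun i => e (ω.2 i)⟩, ?_, ?_⟩
    · rw [measurable_cfg]
      intro k
      refine (measurable_mk k).comp ?_
      exact measurable_pi_lambda _ fun i => he.comp (measurable_pi_apply i)
    · rintro ⟨k, x⟩
      unfold pt
      ext p
      constructor
      · rintro ⟨i, rfl⟩
        exact ⟨x i, ⟨i, rfl⟩, rfl⟩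
      · rintro ⟨_, ⟨i, rfl⟩, rfl⟩
        exact ⟨i, rfl⟩

end Pool.Agent.Lib.MP_5349a4_pr.H16
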