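import Pool.Agent.Lib.MP_5349a4_pr.M.Iface1
import Pool.Agent.Lib.MP_5349a4_pr.M.Base

/-!
# Module MSUM: sums over points, existence of points and of subsets are measurable
-/

set_option autoImplicit false
open MeasureTheory Set
open scoped ENNReal NNReal

namespace Pool.Agent.Lib.MP_5349a4_pr.H16

variable {T E : Type} [MeasurableSpace T] [MeasurableSpace E]

/-- measurability of a set of pairs (parameter, tuple) is checked for every length -/
theorem measurableSet_prod_cfg {s : Set (T × Cfg E)}
    (h : ∀ k, MeasurableSet {q : T × (Fin k → E) | (q.1, (⟨k, q.2⟩ : Cfg E)) ∈ s}) :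
    MeasurableSet s := by
  classical
  have hfst : ∀ k, MeasurableSet {q : T × Cfg E | q.2.1 = k} := by
    intro k
    have h1 : MeasurableSet {ω : Cfg E | ω.1 = k} := by
      rw [measurableSet_cfg]
      intro j
      by_cases hj : j = k
      · simp [hj]
      · simp [hj]
    exact measurable_snd h1
  have hs : s = ⋃ k, {q : T × Cfg E | q.2.1 = k} ∩ s := by
    ext q
    simp
  rw [hs]
  refine MeasurableSet.iUnion fun k => ?_
  rcases isEmpty_or_nonempty (Fin k → E) with hE | hE
  · have : {q : T × Cfg E | q.2.1 = k} ∩ s = ∅ := by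
      ext q
      simp only [mem_inter_iff, mem_setOf_eq, mem_empty_iff_false, iff_false, not_and]
      rintro rfl
      exact (hE.false q.2.2).elim
    rw [this]
    exact MeasurableSet.empty
  · obtain ⟨d⟩ := hE
    let ψ : Cfg E → (Fin k → E) := fun ω => if h : ω.1 = k then h ▸ ω.2 else d
    have hψ : Measurable ψ := by
      rw [measurable_cfg]
      intro j
      by_cases hj : j = k
      · subst hj
        have : (fun x : Fin j → E => ψ ⟨j, x⟩) = id := by
          funext x
          simp [ψ]
        rw [this]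
        exact measurable_id
      · have : (fun x : Fin j → E => ψ ⟨j, x⟩) = fun _ => d := by
          funext x
          simp [ψ, hj]
        rw [this]
        exact measurable_const
    have h2 : {q : T × Cfg E | q.2.1 = k} ∩ s = {q : T × Cfg E | q.2.1 = k} ∩
        (fun q : T × Cfg E => (q.1, ψ q.2)) ⁻¹'
          {q : T × (Fin k → E) | (q.1, (⟨k, q.2⟩ : Cfg E)) ∈ s} := by
      ext ⟨t, ω⟩
      simp only [mem_inter_iff, mem_setOf_eq, mem_preimage, and_congr_right_iff]
      intro hω
      have : (⟨k, ψ ω⟩ : Cfg E) = ω := by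
        rcases ω with ⟨j, x⟩
        simp only at hω
        subst hω
        simp [ψ]
      rw [this]
    rw [h2]
    exact (hfst k).inter ((measurable_fst.prodMk (hψ.comp measurable_snd)) (h k))

theorem measurable_prod_cfg {β : Type*} [MeasurableSpace β] {f : T × Cfg E → β}
    (h : ∀ k, Measurable fun q : T × (Fin k → E) => f (q.1, (⟨k, q.2⟩ : Cfg E))) :
    Measurable f := by
  intro s hs
  exact measurableSet_prod_cfg fun k => h k hs

/-- a sum over the range as a sum over first occurrences -/
theorem tsum_range {k : ℕ} (x : Fin k → E) (F : E → ℝ≥0∞) :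
    ∑' p : (Set.range x : Set E), F p
      = ∑ i : Fin k, ind (∀ j : Fin k, j < i → x j ≠ x i) * F (x i) := by
  classical
  let s : Finset (Fin k) := Finset.univ.filter fun i => ∀ j : Fin k, j < i → x j ≠ x i
  have hinj : Set.InjOn x (s : Set (Fin k)) := by
    intro i hi j hj hij
    simp only [s, Finset.coe_filter, Finset.mem_univ, true_and, mem_setOf_eq] at hi hj
    rcases lt_trichotomy i j with h | h | h
    · exact absurd hij (hj i h)
    · exact h
    · exact absurd hij.symm (hi j h)
  have himg : Set.range x = x '' (s : Set (Fin k)) := by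
    ext p
    constructor
    · rintro ⟨i, rfl⟩
      obtain ⟨m, hm, hmin⟩ := Finset.exists_minimal (s := Finset.univ.filter fun j => x j = x i)
        ⟨i, by simp⟩
      simp only [Finset.mem_filter, Finset.mem_univ, true_and] at hm hmin
      refine ⟨m, ?_, hm⟩
      simp only [s, Finset.coe_filter, Finset.mem_univ, true_and, mem_setOf_eq]
      intro j hj h1
      have h2 := hmin (h1.trans hm) hj.le
      exact absurd hj (not_lt.2 h2)
    · rintro ⟨i, _, rfl⟩
      exact ⟨i, rfl⟩
  rw [tsum_congr_set_coe F himg, tsum_image F hinj]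
  have h1 : ∑' i : ((s : Set (Fin k)) : Set (Fin k)), F (x i) = ∑ i ∈ s, F (x i) :=
    Finset.tsum_subtype s fun i => F (x i)
  rw [h1, Finset.sum_filter]
  refine Finset.sum_congr rfl fun i _ => ?_
  by_cases hi : ∀ j : Fin k, j < i → x j ≠ x i
  · rw [if_pos hi, ind_of hi, one_mul]
  · rw [if_neg hi, ind_not hi, zero_mul]

theorem measurable_entry {k : ℕ} (i : Fin k) :
    Measurable fun q : T × (Fin k → E) => (q.1, q.2 i, (⟨k, q.2⟩ : Cfg E)) :=
  measurable_fst.prodMk (((measurable_pi_apply i).comp measurable_snd).prodMk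
    ((measurable_mk k).comp measurable_snd))

theorem measurableSet_ne [StandardBorelSpace E] {k : ℕ} (i j : Fin k) :
    MeasurableSet {q : T × (Fin k → E) | q.2 i ≠ q.2 j} := by
  have h : MeasurableSet {q : T × (Fin k → E) | q.2 i = q.2 j} :=
    measurableSet_eq_fun ((measurable_pi_apply i).comp measurable_snd)
      ((measurable_pi_apply j).comp measurable_snd)
  exact h.compl

/-- the part of a tuple with indices in `J` -/
def sub {k : ℕ} (J : Finset (Fin k)) (x : Fin k → E) : Cfg E :=
  ⟨J.card, fun i => x (J.orderEmbOfFin rfl i)⟩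

theorem pt_sub {k : ℕ} (J : Finset (Fin k)) (x : Fin k → E) :
    pt (sub J x) = x '' (J : Set (Fin k)) := by
  unfold pt sub
  ext p
  constructor
  · rintro ⟨i, rfl⟩
    exact ⟨_, Finset.orderEmbOfFin_mem J rfl i, rfl⟩
  · rintro ⟨j, hj, rfl⟩
    have : j ∈ Set.range (J.orderEmbOfFin rfl) := by
      rw [Finset.range_orderEmbOfFin]; exact hj
    obtain ⟨i, rfl⟩ := this
    exact ⟨i, rfl⟩

theorem measurable_sub {k : ℕ} (J : Finset (Fin k)) :
    Measurable (sub J : (Fin k → E) → Cfg E) :=
  (measurable_mk J.card).comp (measurable_pi_lambda _ fun i => measurable_pi_apply _)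

/-- **MSUM.** -/
theorem msum : MSumStatement := by
  classical
  refine ⟨?_, ?_, ?_⟩
  · intro T E _ _ _ g hg
    refine measurable_prod_cfg fun k => ?_
    have h1 : (fun q : T × (Fin k → E) => ∑' p : (pt (⟨k, q.2⟩ : Cfg E) : Set E),
        g q.1 p (pt (⟨k, q.2⟩ : Cfg E))) = fun q => ∑ i : Fin k,
          ind (∀ j : Fin k, j < i → q.2 j ≠ q.2 i) * g q.1 (q.2 i) (pt (⟨k, q.2⟩ : Cfg E)) := by
      funext q
      exact tsum_range q.2 fun p => g q.1 p (pt (⟨k, q.2⟩ : Cfg E))
    show Measurable (fun q : T × (Fin k → E) => ∑' p : (pt (⟨k, q.2⟩ : Cfg E) : Set E),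
        g q.1 p (pt (⟨k, q.2⟩ : Cfg E)))
    rw [h1]
    refine Finset.measurable_sum _ fun i _ => Measurable.mul ?_ (hg.comp (measurable_entry i))
    refine measurable_ind ?_
    have h2 : {q : T × (Fin k → E) | ∀ j : Fin k, j < i → q.2 j ≠ q.2 i}
        = ⋂ j : Fin k, {q : T × (Fin k → E) | j < i → q.2 j ≠ q.2 i} := by
      ext q; simp
    rw [h2]
    refine MeasurableSet.iInter fun j => ?_
    by_cases hj : j < i
    · simpa [hj] using measurableSet_ne (T := T) (E := E) j i
    · simp [hj]
  · intro T E _ _ S hS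
    refine measurableSet_prod_cfg fun k => ?_
    have h1 : {q : T × (Fin k → E) | (q.1, (⟨k, q.2⟩ : Cfg E)) ∈
        {q : T × Cfg E | ∃ p ∈ pt q.2, S q.1 p (pt q.2)}}
        = ⋃ i : Fin k, {q : T × (Fin k → E) | S q.1 (q.2 i) (pt (⟨k, q.2⟩ : Cfg E))} := by
      ext q
      simp only [mem_setOf_eq, mem_iUnion]
      constructor
      · rintro ⟨p, ⟨i, rfl⟩, h⟩
        exact ⟨i, h⟩
      · rintro ⟨i, h⟩
        exact ⟨_, ⟨i, rfl⟩, h⟩
    rw [h1]
    exact MeasurableSet.iUnion fun i => (measurable_entry i) hS
  · intro T E _ _ _ S hS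
    refine measurableSet_prod_cfg fun k => ?_
    have h1 : {q : T × (Fin k → E) | (q.1, (⟨k, q.2⟩ : Cfg E)) ∈
        {q : T × Cfg E | ∃ I ⊆ pt q.2, S q.1 I (pt q.2 \ I)}}
        = ⋃ J : Finset (Fin k), {q : T × (Fin k → E) | ∀ i j : Fin k, i ∈ J → j ∉ J →
            q.2 i ≠ q.2 j} ∩ {q : T × (Fin k → E) | S q.1 (pt (sub J q.2)) (pt (sub Jᶜ q.2))} := by
      ext ⟨t, x⟩
      simp only [mem_setOf_eq, mem_iUnion, mem_inter_iff]
      constructor
      · rintro ⟨I, hI, h⟩
        refine ⟨Finset.univ.filter fun i => x i ∈ I, ?_, ?_⟩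
        · intro i j hi hj hij
          simp only [Finset.mem_filter, Finset.mem_univ, true_and] at hi hj
          exact hj (hij ▸ hi)
        · have e1 : pt (sub (Finset.univ.filter fun i => x i ∈ I) x) = I := by
            rw [pt_sub]
            ext p
            constructor
            · rintro ⟨i, hi, rfl⟩
              simpa using hi
            · intro hp
              obtain ⟨i, rfl⟩ := hI hp
              exact ⟨i, by simpa using hp, rfl⟩
          have e2 : pt (sub (Finset.univ.filter fun i => x i ∈ I)ᶜ x)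
              = pt (⟨k, x⟩ : Cfg E) \ I := by
            rw [pt_sub]
            ext p
            constructor
            · rintro ⟨i, hi, rfl⟩
              exact ⟨⟨i, rfl⟩, by simpa using hi⟩
            · rintro ⟨⟨i, rfl⟩, hp⟩
              exact ⟨i, by simpa using hp, rfl⟩
          rw [e1, e2]
          exact h
      · rintro ⟨J, hJ, h⟩
        refine ⟨pt (sub J x), ?_, ?_⟩
        · rw [pt_sub]
          rintro _ ⟨i, _, rfl⟩
          exact ⟨i, rfl⟩
        · have e2 : pt (⟨k, x⟩ : Cfg E) \ pt (sub J x) = pt (sub Jᶜ x) := by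
            rw [pt_sub, pt_sub]
            ext p
            constructor
            · rintro ⟨⟨i, rfl⟩, hp⟩
              refine ⟨i, ?_, rfl⟩
              simp only [Finset.coe_compl, mem_compl_iff, Finset.mem_coe]
              intro hi
              exact hp ⟨i, hi, rfl⟩
            · rintro ⟨i, hi, rfl⟩
              refine ⟨⟨i, rfl⟩, ?_⟩
              rintro ⟨j, hj, hji⟩
              simp only [Finset.coe_compl, mem_compl_iff, Finset.mem_coe] at hi
              exact hJ j i hj hi hji
          rw [e2]
          exact h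
    rw [h1]
    refine MeasurableSet.iUnion fun J => MeasurableSet.inter ?_ ?_
    · have h2 : {q : T × (Fin k → E) | ∀ i j : Fin k, i ∈ J → j ∉ J → q.2 i ≠ q.2 j}
          = ⋂ i : Fin k, ⋂ j : Fin k, {q : T × (Fin k → E) | i ∈ J → j ∉ J → q.2 i ≠ q.2 j} := by
        ext q; simp
      rw [h2]
      refine MeasurableSet.iInter fun i => MeasurableSet.iInter fun j => ?_
      by_cases hi : i ∈ J
      · by_cases hj : j ∈ J
        · simp [hj]
        · simpa [hi, hj] using measurableSet_ne (T := T) (E := E) i j
      · simp [hi]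
    · have hm : Measurable fun q : T × (Fin k → E) => (q.1, sub J q.2, sub Jᶜ q.2) :=
        measurable_fst.prodMk (((measurable_sub J).comp measurable_snd).prodMk
          ((measurable_sub Jᶜ).comp measurable_snd))
      exact hm hS

end Pool.Agent.Lib.MP_5349a4_pr.H16
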