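import Pool.Agent.Lib.MP_5349a4_pr.M.Iface1
import Pool.Agent.Lib.MP_5349a4_pr.M.Base

/-!
# Module REVD: deterministic counting behind the reverse inequality
-/

set_option autoImplicit false
open Set
open scoped ENNReal

namespace Pool.Agent.Lib.MP_5349a4_pr.H16

variable {E : Type} {adj : E → E → Prop}

theorem tsum_U {P : Set E} (U : Finset E) (h : P ⊆ (U : Set E)) (F : E → ℝ≥0∞) :
    ∑' p : P, F p = ∑ p ∈ U, ind (p ∈ P) * F p := by
  classical
  rw [tsum_subtype P F]
  rw [tsum_eq_sum (s := U)]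
  · refine Finset.sum_congr rfl fun p _ => ?_
    by_cases hp : p ∈ P
    · rw [Set.indicator_of_mem hp, ind_of hp, one_mul]
    · rw [Set.indicator_of_notMem hp, ind_not hp, zero_mul]
  · intro p hp
    exact Set.indicator_of_notMem (fun h' => hp (h h')) F

theorem sum_ind (U : Finset E) (A : E → Prop) [DecidablePred A] :
    ∑ z ∈ U, ind (A z) = ((U.filter A).card : ℝ≥0∞) := by
  classical
  rw [← Finset.sum_boole]
  refine Finset.sum_congr rfl fun z _ => ?_
  unfold ind
  by_cases h : A z <;> simp [h]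

theorem cnt_U {P : Set E} (U : Finset E) (h : P ⊆ (U : Set E)) (z : E) :
    cnt adj P z = ∑ p ∈ U, ind (p ∈ clus adj P z) := by
  unfold cnt
  rw [tsum_U U h (fun p => ind (Con adj P z p))]
  refine Finset.sum_congr rfl fun p _ => ?_
  rw [← ind_and]
  rfl

theorem cl_trans {P : Set E} {x y z : E} (h : y ∈ cl adj P x) (h' : z ∈ cl adj P y) :
    z ∈ cl adj P x := Relation.ReflTransGen.trans h h'

theorem cl_mono {P Q : Set E} (h : P ⊆ Q) {x y : E} (hy : y ∈ cl adj P x) : y ∈ cl adj Q x := by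
  have hy' : Relation.ReflTransGen (step adj P) x y := hy
  show Relation.ReflTransGen (step adj Q) x y
  induction hy' with
  | refl => exact Relation.ReflTransGen.refl
  | tail hb hbc ih => exact Relation.ReflTransGen.tail (ih hb) ⟨hbc.1, h hbc.2⟩

theorem con_cl {P : Set E} {x y : E} (h : Con adj P x y) (hy : y ∈ P) : y ∈ cl adj P x := by
  obtain ⟨a, ha, hay⟩ := h
  exact Relation.ReflTransGen.tail ha ⟨hay, hy⟩

theorem con_trans {P : Set E} {x y z : E} (h : y ∈ cl adj P x) (h' : Con adj P y z) :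
    Con adj P x z := by
  obtain ⟨a, ha, haz⟩ := h'
  exact ⟨a, cl_trans h ha, haz⟩

theorem con_mono {P Q : Set E} (h : P ⊆ Q) {x y : E} (hy : Con adj P x y) : Con adj Q x y := by
  obtain ⟨a, ha, hay⟩ := hy
  exact ⟨a, cl_mono h ha, hay⟩

/-- **REVD.** -/
theorem revd (hC : ClbStatement) : RevDStatement := by
  classical
  intro E adj P₁ P₂ x hsymm hf₁ hf₂ hdis hx1 hx2 Q hQ
  set U : Finset E := (hf₁.union hf₂).toFinset with hU
  have hUmem : ∀ p, p ∈ U ↔ p ∈ P₁ ∪ P₂ := fun p => by rw [hU, Set.Finite.mem_toFinset]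
  have hP₂ : P₂ ⊆ (U : Set E) := fun p hp => (hUmem p).2 (Or.inr hp)
  have hQP : Q ⊆ P₁ ∪ P₂ := by
    rw [hQ]
    rintro e (⟨he, _⟩ | he)
    · exact Or.inl he
    · exact Or.inr he
  have hQU : Q ⊆ (U : Set E) := fun p hp => (hUmem p).2 (hQP hp)
  have hP2Q : P₂ ⊆ Q := by
    rw [hQ]; exact fun e he => Or.inr he
  have hcsymm : ∀ (P : Set E) (a b : E), Con adj P a b → Con adj P b a := fun P a b h =>
    ((hC E adj P P a b).2.2.2.1 hsymm).1 h
  have hsplit : ∀ (P : Set E) (a b c : E), Con adj (insert b P) a c →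
      Con adj P a c ∨ (Con adj P a b ∧ Con adj P b c) := fun P a b c h =>
    (hC E adj P P a b).2.2.2.2.2 (fun e => adj e c) h
  -- the sets D z
  let D : E → E → Prop := fun z p => p = z ∨ p ∈ clus adj (Q \ {z}) z
  let N : E → Prop := fun z => z ∈ P₂ ∧ Con adj P₁ x z
  have hDcount : ∀ z ∈ P₂, 1 + cnt adj (Q \ {z}) z = ∑ p ∈ U, ind (D z p) := by
    intro z hz
    rw [cnt_U U (fun p hp => hQU hp.1) z]
    have h1 : (1 : ℝ≥0∞) = ∑ p ∈ U, ind (p = z) := by
      rw [Finset.sum_eq_single z]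
      · rw [ind_of rfl]
      · intro p _ hp
        exact ind_not hp
      · intro h
        exact absurd (hP₂ hz) h
    rw [h1, ← Finset.sum_add_distrib]
    refine Finset.sum_congr rfl fun p _ => ?_
    by_cases hp : p = z
    · have h2 : p ∉ clus adj (Q \ {z}) z := fun h => h.1.2 hp
      rw [ind_of hp, ind_not h2, ind_of (show D z p from Or.inl hp), add_zero]
    · rw [ind_not hp, zero_add]
      refine ind_congr ⟨fun h => Or.inr h, fun h => h.resolve_left hp⟩
  -- all points of D z are connected to x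
  have hG1 : ∀ z p, N z → D z p → p ∈ P₁ ∪ P₂ ∧ Con adj (P₁ ∪ P₂) x p := by
    intro z p hN hD
    have hz : Con adj (P₁ ∪ P₂) x z := con_mono subset_union_left hN.2
    rcases hD with rfl | hD
    · exact ⟨Or.inr hN.1, hz⟩
    · refine ⟨hQP hD.1.1, con_trans (con_cl hz (Or.inr hN.1)) (con_mono ?_ hD.2)⟩
      exact fun e he => hQP he.1
  -- pairs
  have hins : ∀ z z', z ≠ z' → z' ∈ P₂ → insert z' (Q \ {z, z'}) = Q \ {z} := by
    intro z z' hne hz'
    ext e
    simp only [mem_insert_iff, mem_diff, mem_singleton_iff, not_or]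
    constructor
    · rintro (rfl | ⟨h1, h2, _⟩)
      · exact ⟨hP2Q hz', fun h => hne h.symm⟩
      · exact ⟨h1, h2⟩
    · rintro ⟨h1, h2⟩
      by_cases h3 : e = z'
      · exact Or.inl h3
      · exact Or.inr ⟨h1, h2, h3⟩
  have hpairD : ∀ z z' p, z ≠ z' → z' ∈ P₂ → D z p → p = z ∨ p = z' ∨
      (p ∈ Q \ {z, z'} ∧ (Con adj (Q \ {z, z'}) z p ∨
        (Con adj (Q \ {z, z'}) z z' ∧ Con adj (Q \ {z, z'}) z' p))) := by
    intro z z' p hne hz' hD
    rcases hD with h | h
    · exact Or.inl h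
    · by_cases hp : p = z'
      · exact Or.inr (Or.inl hp)
      · refine Or.inr (Or.inr ⟨⟨h.1.1, ?_⟩, ?_⟩)
        · simp only [mem_insert_iff, mem_singleton_iff, not_or]
          exact ⟨h.1.2, hp⟩
        · have h1 := h.2
          rw [← hins z z' hne hz'] at h1
          exact hsplit _ _ _ _ h1
  have hcomm : ∀ z z' : E, (Q \ {z', z} : Set E) = Q \ {z, z'} := by
    intro z z'
    rw [Set.pair_comm]
  -- a common point connects z and z'
  have hG3 : ∀ z z' p, z ≠ z' → z ∈ P₂ → z' ∈ P₂ → D z p → D z' p →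
      Con adj (Q \ {z, z'}) z z' := by
    intro z z' p hne hz hz' h1 h2
    have hself : ∀ z z', z ≠ z' → z ∈ P₂ → z' ∈ P₂ → D z z' → Con adj (Q \ {z, z'}) z z' := by
      intro z z' hne hz hz' h
      rcases h with h | h
      · exact absurd h.symm hne
      · have h3 := h.2
        rw [← hins z z' hne hz'] at h3
        rcases hsplit _ _ _ _ h3 with h4 | h4
        · exact h4
        · exact h4.1
    rcases hpairD z z' p hne hz' h1 with rfl | rfl | ⟨hp, h3⟩
    · have := hself z' p hne.symm hz' hz h2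
      rw [hcomm] at this
      exact hcsymm _ _ _ this
    · exact hself z p hne hz hz' h1
    · rcases h3 with h3 | h3
      · rcases hpairD z' z p hne.symm hz h2 with rfl | rfl | ⟨_, h4⟩
        · exact hself z p hne hz hz' h1
        · exact absurd (Or.inl rfl) hp.2
        · rw [hcomm] at h4
          rcases h4 with h4 | h4
          · exact con_trans (con_cl h3 hp) (hcsymm _ _ _ h4)
          · exact hcsymm _ _ _ h4.1
      · exact h3.1
  have hG2 : ∀ z z', z ≠ z' → z ∈ P₂ → z' ∈ P₂ → ∑ p ∈ U, ind (D z p ∧ D z' p) ≤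
      ind (Con adj (Q \ {z, z'}) z z') * (1 + cnt adj (Q \ {z, z'}) z)
        + ind (Con adj (Q \ {z, z'}) z' z) * (1 + cnt adj (Q \ {z, z'}) z') := by
    intro z z' hne hz hz'
    by_cases hex : ∃ p, D z p ∧ D z' p
    · obtain ⟨p₀, h1, h2⟩ := hex
      have h3 := hG3 z z' p₀ hne hz hz' h1 h2
      rw [ind_of h3, ind_of (hcsymm _ _ _ h3), one_mul, one_mul]
      rw [cnt_U U (fun p hp => hQU hp.1) z, cnt_U U (fun p hp => hQU hp.1) z']
      have h4 : ∀ w ∈ P₂, (1 : ℝ≥0∞) = ∑ p ∈ U, ind (p = w) := by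
        intro w hw
        rw [Finset.sum_eq_single w]
        · rw [ind_of rfl]
        · intro p _ hp
          exact ind_not hp
        · intro h
          exact absurd (hP₂ hw) h
      rw [add_add_add_comm]
      nth_rewrite 1 [h4 z hz]
      nth_rewrite 1 [h4 z' hz']
      rw [← Finset.sum_add_distrib, ← Finset.sum_add_distrib, ← Finset.sum_add_distrib]
      refine Finset.sum_le_sum fun p _ => ?_
      by_cases hp : D z p ∧ D z' p
      · rw [ind_of hp]
        rcases hpairD z z' p hne hz' hp.1 with h5 | h5 | ⟨h5, h6⟩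
        · rw [ind_of h5, add_assoc]
          exact le_self_add
        · rw [ind_of h5, add_comm (ind (p = z)), add_assoc]
          exact le_self_add
        · have h7 : ind (p ∈ clus adj (Q \ {z, z'}) z) + ind (p ∈ clus adj (Q \ {z, z'}) z') ≥ 1 := by
            rcases h6 with h6 | h6
            · rw [ind_of (show p ∈ clus adj (Q \ {z, z'}) z from ⟨h5, h6⟩)]
              exact le_self_add
            · rw [ind_of (show p ∈ clus adj (Q \ {z, z'}) z' from ⟨h5, h6.2⟩), add_comm]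
              exact le_self_add
          exact h7.trans le_add_self
      · rw [ind_not hp]
        exact zero_le
    · have h1 : ∑ p ∈ U, ind (D z p ∧ D z' p) = 0 :=
        Finset.sum_eq_zero fun p _ => ind_not fun h => hex ⟨p, h⟩
      rw [h1]
      exact zero_le
  -- pointwise inequality
  have hpoint : ∀ p ∈ U, 2 * ∑ z ∈ U, ind (N z ∧ D z p) ≤ 2 * ind (p ∈ clus adj (P₁ ∪ P₂) x)
      + ∑ z ∈ U, ∑ z' ∈ U, ind (z ≠ z' ∧ N z ∧ N z') * ind (D z p ∧ D z' p) := by
    intro p hp
    let S : Finset E := U.filter fun z => N z ∧ D z p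
    have h1 : ∑ z ∈ U, ind (N z ∧ D z p) = (S.card : ℝ≥0∞) := sum_ind U _
    have h2 : ∑ z ∈ U, ∑ z' ∈ U, ind (z ≠ z' ∧ N z ∧ N z') * ind (D z p ∧ D z' p)
        = ((S.card * S.card - S.card : ℕ) : ℝ≥0∞) := by
      rw [← Finset.offDiag_card, ← Finset.sum_product']
      have h3 : S.offDiag = (U ×ˢ U).filter fun q => (q.1 ≠ q.2 ∧ N q.1 ∧ N q.2) ∧
          (D q.1 p ∧ D q.2 p) := by
        ext ⟨a, b⟩
        simp only [Finset.mem_offDiag, S, Finset.mem_filter, Finset.mem_product]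
        tauto
      rw [h3, ← Finset.sum_boole]
      refine Finset.sum_congr rfl fun q _ => ?_
      rw [← ind_and]
      unfold ind
      by_cases h : ((q.1 ≠ q.2 ∧ N q.1 ∧ N q.2) ∧ (D q.1 p ∧ D q.2 p)) <;> simp [h]
    rw [h1, h2]
    rcases Nat.eq_zero_or_pos S.card with h0 | h0
    · rw [h0]
      simp
    · obtain ⟨z, hz⟩ := Finset.card_pos.1 h0
      have hz' := (Finset.mem_filter.1 hz).2
      have h5 : p ∈ clus adj (P₁ ∪ P₂) x := ⟨(hUmem p).1 hp, (hG1 z p hz'.1 hz'.2).2⟩
      rw [ind_of h5, mul_one]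
      have h6 : 2 * S.card ≤ 2 + (S.card * S.card - S.card) := by
        obtain ⟨n, hn⟩ : ∃ n, S.card = n + 1 := ⟨S.card - 1, by omega⟩
        rw [hn]
        have h7 : (n + 1) * (n + 1) - (n + 1) = n * n + n := by
          have : (n + 1) * (n + 1) = n * n + n + (n + 1) := by ring
          omega
        rw [h7]
        rcases n with _ | n
        · simp
        · nlinarith
      exact_mod_cast h6
  -- assembly
  have hL : 2 * ∑' z : P₂, ind (Con adj P₁ x z) * (1 + cnt adj (Q \ {(z : E)}) z)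
      = ∑ p ∈ U, 2 * ∑ z ∈ U, ind (N z ∧ D z p) := by
    rw [tsum_U U hP₂ (fun z => ind (Con adj P₁ x z) * (1 + cnt adj (Q \ {z}) z)), ← Finset.mul_sum,
      Finset.sum_comm]
    congr 1
    refine Finset.sum_congr rfl fun z _ => ?_
    by_cases hz : z ∈ P₂
    · rw [hDcount z hz, ← mul_assoc, ← ind_and, Finset.mul_sum]
      refine Finset.sum_congr rfl fun p _ => ?_
      rw [← ind_and]
    · rw [ind_not hz, zero_mul]
      refine (Finset.sum_eq_zero fun p _ => ind_not ?_).symm
      exact fun h => hz h.1.1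
  have hR : ∑' z : P₂, ∑' z' : P₂, ind ((z : E) ≠ z' ∧ Con adj P₁ x z ∧ Con adj P₁ x z') *
            (ind (Con adj (Q \ {(z : E), (z' : E)}) z z') * (1 + cnt adj (Q \ {(z : E), (z' : E)}) z)
            + ind (Con adj (Q \ {(z : E), (z' : E)}) z' z) * (1 + cnt adj (Q \ {(z : E), (z' : E)}) z'))
      = ∑ z ∈ U, ∑ z' ∈ U, ind (z ≠ z' ∧ N z ∧ N z') *
            (ind (Con adj (Q \ {z, z'}) z z') * (1 + cnt adj (Q \ {z, z'}) z)
            + ind (Con adj (Q \ {z, z'}) z' z) * (1 + cnt adj (Q \ {z, z'}) z')) := by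
    rw [tsum_U U hP₂ (fun z => ∑' z' : P₂, ind (z ≠ z' ∧ Con adj P₁ x z ∧ Con adj P₁ x z') *
            (ind (Con adj (Q \ {z, (z' : E)}) z z') * (1 + cnt adj (Q \ {z, (z' : E)}) z)
            + ind (Con adj (Q \ {z, (z' : E)}) z' z) * (1 + cnt adj (Q \ {z, (z' : E)}) z')))]
    refine Finset.sum_congr rfl fun z _ => ?_
    rw [tsum_U U hP₂ (fun z' => ind (z ≠ z' ∧ Con adj P₁ x z ∧ Con adj P₁ x z') *
            (ind (Con adj (Q \ {z, z'}) z z') * (1 + cnt adj (Q \ {z, z'}) z)
            + ind (Con adj (Q \ {z, z'}) z' z) * (1 + cnt adj (Q \ {z, z'}) z'))), Finset.mul_sum]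
    refine Finset.sum_congr rfl fun z' _ => ?_
    rw [← mul_assoc, ← mul_assoc, ← ind_and, ← ind_and]
    congr 1
    refine ind_congr ?_
    simp only [N]
    tauto
  rw [hL, hR, cnt_U U (fun p hp => (hUmem p).2 hp) x, Finset.mul_sum]
  refine (Finset.sum_le_sum hpoint).trans ?_
  rw [Finset.sum_add_distrib]
  refine add_le_add le_rfl ?_
  rw [Finset.sum_comm]
  refine Finset.sum_le_sum fun z _ => ?_
  rw [Finset.sum_comm]
  refine Finset.sum_le_sum fun z' _ => ?_
  rw [← Finset.mul_sum]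
  by_cases h : z ≠ z' ∧ N z ∧ N z'
  · exact mul_le_mul_right (hG2 z z' h.1 h.2.1.1 h.2.2.1) _
  · rw [ind_not h, zero_mul, zero_mul]

end Pool.Agent.Lib.MP_5349a4_pr.H16
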