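import Pool.Agent.Lib.MP_5349a4_pr.M.Iface1
import Pool.Agent.Lib.MP_5349a4_pr.M.Base

/-!
# Module TREE: the deterministic part of the tree-graph inequality
-/

set_option autoImplicit false
open Set

namespace Pool.Agent.Lib.MP_5349a4_pr.H16

variable {E : Type} {adj : E → E → Prop}

/-- a chain of length `k` starting at `x` with further points in `P` -/
structure Ch (adj : E → E → Prop) (P : Set E) (x : E) (k : ℕ) (f : ℕ → E) : Prop where
  zero : f 0 = x
  step : ∀ i, i < k → adj (f i) (f (i + 1)) ∧ f (i + 1) ∈ P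

theorem exists_chain {P : Set E} {x a : E} (h : a ∈ cl adj P x) :
    ∃ (k : ℕ) (f : ℕ → E), Ch adj P x k f ∧ f k = a := by
  have h' : Relation.ReflTransGen (step adj P) x a := h
  induction h' with
  | refl => exact ⟨0, fun _ => x, ⟨rfl, fun i hi => absurd hi (Nat.not_lt_zero _)⟩, rfl⟩
  | @tail b c hb hbc ih =>
    obtain ⟨k, f, hf, hfk⟩ := ih hb
    refine ⟨k + 1, fun m => if m ≤ k then f m else c, ⟨by simp [hf.zero], ?_⟩, by simp⟩
    intro i hi
    rcases Nat.lt_or_ge i k with h1 | h1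
    · have h2 : i ≤ k := h1.le
      have h3 : i + 1 ≤ k := h1
      simp only [h2, h3, if_true]
      exact hf.step i h1
    · have h2 : i = k := by omega
      subst h2
      simp only [le_refl, if_true, Nat.not_succ_le_self, if_false]
      rw [hfk]
      exact hbc

/-- a shortest chain to a point with property `s` has distinct points -/
theorem exists_inj {s : E → Prop} {P : Set E} {x : E} (h : Hs adj s P x) :
    ∃ (k : ℕ) (f : ℕ → E), Ch adj P x k f ∧ s (f k) ∧
      ∀ i j, i ≤ k → j ≤ k → f i = f j → i = j := by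
  classical
  obtain ⟨a, ha, hsa⟩ := h
  obtain ⟨k₀, f₀, hf₀, hk₀⟩ := exists_chain ha
  have hex : ∃ k, ∃ f : ℕ → E, Ch adj P x k f ∧ s (f k) := ⟨k₀, f₀, hf₀, by rw [hk₀]; exact hsa⟩
  obtain ⟨f, hf, hs⟩ := Nat.find_spec hex
  have hmin := fun m (hm : m < Nat.find hex) => Nat.find_min hex hm
  set k := Nat.find hex
  refine ⟨k, f, hf, hs, ?_⟩
  have key : ∀ i j, i < j → j ≤ k → f i ≠ f j := by
    intro i j hij hj heq
    refine hmin (k - (j - i)) (by omega) ⟨fun m => if m ≤ i then f m else f (m + (j - i)), ?_, ?_⟩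
    · refine ⟨by simp [hf.zero], ?_⟩
      intro m hm
      rcases lt_trichotomy m i with h1 | h1 | h1
      · have h2 : m ≤ i := h1.le
        have h3 : m + 1 ≤ i := h1
        simp only [h2, h3, if_true]
        exact hf.step m (by omega)
      · subst h1
        have h3 : ¬ (m + 1 ≤ m) := by omega
        simp only [le_refl, if_true, h3, if_false]
        rw [heq]
        have h4 : m + 1 + (j - m) = j + 1 := by omega
        rw [h4]
        exact hf.step j (by omega)
      · have h2 : ¬ (m ≤ i) := by omega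
        have h3 : ¬ (m + 1 ≤ i) := by omega
        simp only [h2, h3, if_false]
        have h4 : m + 1 + (j - i) = m + (j - i) + 1 := by omega
        rw [h4]
        exact hf.step (m + (j - i)) (by omega)
    · by_cases h1 : k - (j - i) ≤ i
      · have h2 : k - (j - i) = i := by omega
        have h3 : k = j := by omega
        simp only [h2, le_refl, if_true]
        rw [heq, ← h3]
        exact hs
      · simp only [h1, if_false]
        have h2 : k - (j - i) + (j - i) = k := by omega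
        rw [h2]
        exact hs
  intro i j hi hj heq
  rcases lt_trichotomy i j with h1 | h1 | h1
  · exact absurd heq (key i j h1 hj)
  · exact h1
  · exact absurd heq.symm (key j i h1 hi)

/-- a segment of a chain -/
theorem seg {Q : Set E} {f : ℕ → E} {i m : ℕ} (him : i ≤ m)
    (h : ∀ n, i ≤ n → n < m → adj (f n) (f (n + 1)) ∧ f (n + 1) ∈ Q) :
    f m ∈ cl adj Q (f i) := by
  induction m, him using Nat.le_induction with
  | base => exact Relation.ReflTransGen.refl
  | succ m him ih =>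
    have h1 : f m ∈ cl adj Q (f i) := ih fun n hn hn' => h n hn (by omega)
    exact Relation.ReflTransGen.tail h1 (h m him (by omega))

/-- **TREE.** -/
theorem tree : TreeStatement := by
  classical
  intro E adj s t P x _ hs ht
  obtain ⟨k, f, hf, hsf, hinj⟩ := exists_inj hs
  obtain ⟨a, ha, hta⟩ := ht
  obtain ⟨l, g, hg, hgl⟩ := exists_chain ha
  -- the last common point
  let p : ℕ → Prop := fun j => ∃ i, i ≤ k ∧ g j = f i
  have hp0 : p 0 := ⟨0, Nat.zero_le _, by rw [hg.zero, hf.zero]⟩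
  set j := Nat.findGreatest p l with hj
  have hjl : j ≤ l := Nat.findGreatest_le l
  obtain ⟨i, hik, hgi⟩ : p j := Nat.findGreatest_spec (P := p) (Nat.zero_le l) hp0
  have hlast : ∀ n, j < n → n ≤ l → ∀ i, i ≤ k → g n ≠ f i := by
    intro n hn hnl i hi heq
    exact Nat.findGreatest_is_greatest (P := p) hn hnl ⟨i, hi, heq⟩
  -- the third piece
  let P₃ : Set E := g '' Set.Ioc j l
  have h3 : P₃ ⊆ P := by
    rintro _ ⟨n, ⟨hn1, hn2⟩, rfl⟩
    obtain ⟨n', rfl⟩ : ∃ n', n = n' + 1 := ⟨n - 1, by omega⟩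
    exact (hg.step n' (by omega)).2
  have ht3 : Hs adj t P₃ (g j) := by
    refine ⟨g l, seg hjl ?_, by rw [hgl]; exact hta⟩
    intro n hn hn'
    exact ⟨(hg.step n hn').1, ⟨n + 1, ⟨by omega, hn'⟩, rfl⟩⟩
  let P₂ : Set E := f '' Set.Ioc i k
  have h2 : P₂ ⊆ P := by
    rintro _ ⟨n, ⟨hn1, hn2⟩, rfl⟩
    obtain ⟨n', rfl⟩ : ∃ n', n = n' + 1 := ⟨n - 1, by omega⟩
    exact (hf.step n' (by omega)).2
  have hs2 : Hs adj s P₂ (f i) := by
    refine ⟨f k, seg hik ?_, hsf⟩
    intro n hn hn'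
    exact ⟨(hf.step n hn').1, ⟨n + 1, ⟨by omega, hn'⟩, rfl⟩⟩
  have h23 : Disjoint P₂ P₃ := by
    rw [Set.disjoint_left]
    rintro _ ⟨n, ⟨hn1, hn2⟩, rfl⟩ ⟨n', ⟨hn1', hn2'⟩, heq⟩
    exact hlast n' hn1' hn2' n hn2 heq
  rcases Nat.eq_zero_or_pos i with hi0 | hi0
  · left
    subst hi0
    refine ⟨P₂, P₃, h2, h3, h23, ?_, ?_⟩
    · rwa [hf.zero] at hs2
    · rwa [hgi, hf.zero] at ht3
  · right
    have hb : f i ∈ P := by
      obtain ⟨i', rfl⟩ : ∃ i', i = i' + 1 := ⟨i - 1, by omega⟩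
      exact (hf.step i' (by omega)).2
    let P₁ : Set E := f '' Set.Ioo 0 i
    have h1 : P₁ ⊆ P := by
      rintro _ ⟨n, ⟨hn1, hn2⟩, rfl⟩
      obtain ⟨n', rfl⟩ : ∃ n', n = n' + 1 := ⟨n - 1, by omega⟩
      exact (hf.step n' (by omega)).2
    refine ⟨f i, hb, P₁, P₂, P₃, ?_, ?_, ?_, ?_, ?_, h23, ?_, hs2, ?_⟩
    · intro y hy
      refine ⟨h1 hy, ?_⟩
      obtain ⟨n, ⟨hn1, hn2⟩, rfl⟩ := hy
      intro heq
      have := hinj n i (by omega) hik heq
      omega
    · intro y hy
      refine ⟨h2 hy, ?_⟩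
      obtain ⟨n, ⟨hn1, hn2⟩, rfl⟩ := hy
      intro heq
      have := hinj n i hn2 hik heq
      omega
    · intro y hy
      refine ⟨h3 hy, ?_⟩
      obtain ⟨n, ⟨hn1, hn2⟩, rfl⟩ := hy
      intro heq
      exact hlast n hn1 hn2 i hik heq
    · rw [Set.disjoint_left]
      rintro _ ⟨n, ⟨hn1, hn2⟩, rfl⟩ ⟨n', ⟨hn1', hn2'⟩, heq⟩
      have := hinj n' n hn2' (by omega) heq
      omega
    · rw [Set.disjoint_left]
      rintro _ ⟨n, ⟨hn1, hn2⟩, rfl⟩ ⟨n', ⟨hn1', hn2'⟩, heq⟩
      exact hlast n' hn1' hn2' n (by omega) heq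
    · refine ⟨f (i - 1), ?_, ?_⟩
      · have h4 : f (i - 1) ∈ cl adj P₁ (f 0) := by
          refine seg (Nat.zero_le _) ?_
          intro n _ hn'
          exact ⟨(hf.step n (by omega)).1, ⟨n + 1, ⟨by omega, by omega⟩, rfl⟩⟩
        rwa [hf.zero] at h4
      · have h4 := (hf.step (i - 1) (by omega)).1
        have h5 : i - 1 + 1 = i := by omega
        rwa [h5] at h4
    · rwa [hgi] at ht3

end Pool.Agent.Lib.MP_5349a4_pr.H16
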